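import Mathlib
import Pool.Agent.Lib.MP_2fa2a2_gt.PI.All

namespace Pool.Agent.Results.MP_2fa2a2_gt.Counter

/-- A convex body in three-space with the origin in its interior that is not an ellipsoid, whose
projection body is a dilate of its intersection body. -/
theorem result :
    ∃ K : Set (EuclideanSpace ℝ (Fin 3)), Convex ℝ K ∧ IsCompact K ∧
      (0 : EuclideanSpace ℝ (Fin 3)) ∈ interior K ∧
      (∃ r : ℝ, 0 < r ∧
        {x : EuclideanSpace ℝ (Fin 3) | ∀ u : EuclideanSpace ℝ (Fin 3), ‖u‖ = 1 →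
            inner ℝ x u ≤ (MeasureTheory.Measure.hausdorffMeasure 2
              ((fun y : EuclideanSpace ℝ (Fin 3) => y - inner ℝ u y • u) '' K)).toReal}
          = (fun y : EuclideanSpace ℝ (Fin 3) => r • y) ''
            {x : EuclideanSpace ℝ (Fin 3) | x = 0 ∨
              ‖x‖ ≤ (MeasureTheory.Measure.hausdorffMeasure 2
                (K ∩ {y : EuclideanSpace ℝ (Fin 3) | inner ℝ x y = 0})).toReal}) ∧
      ¬ ∃ A : EuclideanSpace ℝ (Fin 3) ≃ᵃ[ℝ] EuclideanSpace ℝ (Fin 3),
        K = A '' Metric.closedBall 0 1 :=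
  Pool.Agent.Lib.MP_2fa2a2_gt.PI.target

end Pool.Agent.Results.MP_2fa2a2_gt.Counter
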