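import Pool.Agent.Lib.MP_2fa2a2_gt.Main

set_option autoImplicit false

open MeasureTheory Set

namespace Pool.Agent.Results.MP_2fa2a2_gt.NoPolytope

open Pool.Agent.Lib.MP_2fa2a2_gt

/-- For `n ≥ 4`, no convex polytope `K` (a bounded intersection of finitely many closed half spaces
with nonempty interior) has its projection body homothetic to its intersection body or to its
cross-section body. -/
theorem result :
    ∀ (n : ℕ), 4 ≤ n → ∀ (m : ℕ) (a : Fin m → EuclideanSpace ℝ (Fin n)) (b : Fin m → ℝ)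
      (K : Set (EuclideanSpace ℝ (Fin n))), K = {x | ∀ i, inner ℝ (a i) x ≤ b i} →
      Bornology.IsBounded K → (interior K).Nonempty →
      ¬ ((∃ c : EuclideanSpace ℝ (Fin n), ∃ r : ℝ, 0 < r ∧
          {x : EuclideanSpace ℝ (Fin n) | ∀ u : EuclideanSpace ℝ (Fin n), ‖u‖ = 1 →
              inner ℝ x u ≤ (MeasureTheory.Measure.hausdorffMeasure ((n : ℝ) - 1)
                ((fun y : EuclideanSpace ℝ (Fin n) => y - inner ℝ u y • u) '' K)).toReal}
          = (fun y : EuclideanSpace ℝ (Fin n) => c + r • y) ''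
              {x : EuclideanSpace ℝ (Fin n) | x = 0 ∨
                ‖x‖ ≤ (MeasureTheory.Measure.hausdorffMeasure ((n : ℝ) - 1)
                  (K ∩ {y : EuclideanSpace ℝ (Fin n) | inner ℝ x y = 0})).toReal}) ∨
       (∃ c : EuclideanSpace ℝ (Fin n), ∃ r : ℝ, 0 < r ∧
          {x : EuclideanSpace ℝ (Fin n) | ∀ u : EuclideanSpace ℝ (Fin n), ‖u‖ = 1 →
              inner ℝ x u ≤ (MeasureTheory.Measure.hausdorffMeasure ((n : ℝ) - 1)
                ((fun y : EuclideanSpace ℝ (Fin n) => y - inner ℝ u y • u) '' K)).toReal}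
          = (fun y : EuclideanSpace ℝ (Fin n) => c + r • y) ''
              {x : EuclideanSpace ℝ (Fin n) | x = 0 ∨ ∃ t : ℝ,
                ‖x‖ ≤ (MeasureTheory.Measure.hausdorffMeasure ((n : ℝ) - 1)
                  (K ∩ {y : EuclideanSpace ℝ (Fin n) | inner ℝ x y = t})).toReal})) := by
  classical
  intro n hn m a b K hK hb hi
  obtain ⟨d, rfl⟩ : ∃ d, n = d + 1 := ⟨n - 1, by omega⟩
  have hd : Module.finrank ℝ (EuclideanSpace ℝ (Fin (d + 1))) = d + 1 := by simp
  have hcast : (((d + 1 : ℕ) : ℝ) - 1) = (d : ℝ) := by push_cast; ring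
  let H : Finset (EuclideanSpace ℝ (Fin (d + 1)) × ℝ) :=
    (Finset.univ.filter fun i => a i ≠ 0).image fun i => (‖a i‖⁻¹ • a i, ‖a i‖⁻¹ * b i)
  have hH : ∀ h ∈ H, ‖h.1‖ = 1 := by
    intro h hh
    obtain ⟨i, hi, rfl⟩ := Finset.mem_image.1 hh
    have := (Finset.mem_filter.1 hi).2
    rw [norm_smul]
    simp [this]
  have hKH : K = poly H := by
    obtain ⟨p, hp⟩ := hi
    have hp' := interior_subset hp
    rw [hK] at hp' ⊢
    ext x
    simp only [poly, mem_ofPred_eq, H, Finset.forall_mem_image, Finset.mem_filter,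
      Finset.mem_univ, true_and, real_inner_smul_left]
    refine forall_congr' fun i => ?_
    by_cases h : a i = 0
    · have := hp' i
      simp only [h, inner_zero_left] at this
      simp [h, this]
    · have : 0 < ‖a i‖⁻¹ := by positivity
      simp only [ne_eq, h, not_false_eq_true, forall_true_left]
      exact (mul_le_mul_iff_right₀ this).symm
  rw [hcast]
  subst hKH
  rintro (⟨c, r, hr, h⟩ | ⟨c, r, hr, h⟩)
  · refine core hd (by omega) hH hb hi (T := {0}) (Or.inl rfl) (c := c) hr ?_
    simp only [mem_singleton_iff, exists_eq_left]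
    exact h
  · refine core hd (by omega) hH hb hi (T := univ) (Or.inr rfl) (c := c) hr ?_
    simp only [mem_univ, true_and]
    exact h

end Pool.Agent.Results.MP_2fa2a2_gt.NoPolytope
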